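import Pool.Agent.W188.Ray.A3

set_option autoImplicit false

open Complex Filter Topology Set Metric

namespace Pool.Agent.W188.Ray

open H345 H345.Chi

lemma norm_zeta_le_two {s : ℂ} (hs : 2 ≤ s.re) : ‖riemannZeta s‖ ≤ 2 := by
  rw [zeta_eq_tsum_one_div_nat_add_one_cpow (by linarith)]
  have hterm : ∀ n : ℕ, ‖1 / ((n : ℂ) + 1) ^ s‖ ≤ 1 / ((n : ℝ) + 1) ^ 2 := by
    intro n
    have h1 : ((n : ℂ) + 1) = (((n : ℝ) + 1 : ℝ) : ℂ) := by push_cast; ring
    rw [norm_div, norm_one, h1, Complex.norm_cpow_eq_rpow_re_of_pos (by positivity)]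
    apply one_div_le_one_div_of_le (by positivity)
    rw [← Real.rpow_natCast]
    apply Real.rpow_le_rpow_of_exponent_le _ (by exact_mod_cast hs)
    have : (0 : ℝ) ≤ n := Nat.cast_nonneg n
    linarith
  have hs2 : Summable (fun n : ℕ => 1 / ((n : ℝ) + 1) ^ 2) := H370.DG.summable_inv_sq
  have hz : ∑' n : ℕ, 1 / ((n : ℝ) + 1) ^ 2 = Real.pi ^ 2 / 6 := by
    have h1 := hasSum_zeta_two
    have h2 := h1.summable.tsum_eq_zero_add
    rw [h1.tsum_eq] at h2
    simp only [Nat.cast_zero, ne_eq, OfNat.ofNat_ne_zero, not_false_eq_true, zero_pow, div_zero,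
      zero_add, Nat.cast_add, Nat.cast_one] at h2
    exact h2.symm
  refine (tsum_of_norm_bounded hs2.hasSum hterm).trans ?_
  rw [hz]
  have hpi := Real.pi_lt_d2
  have hpi0 := Real.pi_pos
  nlinarith

lemma zeta_diff {s : ℂ} (hs : 1 ≤ s.im) : DifferentiableAt ℂ riemannZeta s := by
  apply differentiableAt_riemannZeta
  intro h
  rw [h] at hs
  simp at hs
  linarith

lemma norm_le_re_im {s : ℂ} {a b : ℝ} (h0 : 0 ≤ s.re) (h1 : s.re ≤ a) (h2 : 0 ≤ s.im)
    (h3 : s.im ≤ b) : ‖s‖ ≤ a + b := by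
  have := norm_le_abs_re_add_abs_im s
  rw [abs_of_nonneg h0, abs_of_nonneg h2] at this
  linarith

lemma deriv_bound {t : ℝ} (ht : 60 ≤ t) : ‖deriv riemannZeta (cp t)‖ ≤ 50 * t := by
  have hz : ∀ z ∈ closedBall (cp t) (1 / 8), 3 / 8 ≤ z.re ∧ z.re ≤ 5 / 8 ∧ t - 1 / 8 ≤ z.im ∧
      z.im ≤ t + 1 / 8 := by
    intro z hz
    rw [mem_closedBall, dist_eq_norm] at hz
    have h1 := abs_le.1 ((abs_re_le_norm _).trans hz)
    have h2 := abs_le.1 ((abs_im_le_norm _).trans hz)
    rw [sub_re, cp_re] at h1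
    rw [sub_im, cp_im] at h2
    exact ⟨by linarith [h1.1], by linarith [h1.2], by linarith [h2.1], by linarith [h2.2]⟩
  have h := norm_deriv_le_of_forall_mem_sphere_norm_le (f := riemannZeta) (c := cp t) (R := 1 / 8)
    (C := 6 * (t + 1)) (by norm_num)
    (by
      apply DifferentiableOn.diffContOnCl
      intro z hz'
      rw [closure_ball _ (by norm_num)] at hz'
      obtain ⟨a1, a2, a3, a4⟩ := hz z hz'
      exact (zeta_diff (by linarith)).differentiableWithinAt)
    (by
      intro z hz'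
      obtain ⟨a1, a2, a3, a4⟩ := hz z (sphere_subset_closedBall hz')
      have h5 := Pool.Agent.H388LH.zeta_growth (s := z) (by linarith) (by linarith)
      have h6 := norm_le_re_im (s := z) (by linarith) a2 (by linarith) a4
      linarith)
  refine h.trans ?_
  rw [div_le_iff₀ (by norm_num)]
  linarith

lemma zeta_lip {t t' T : ℝ} (hT : 1000 ≤ T) (h1 : T / 2 ≤ t) (h2 : t ≤ 2 * T) (h3 : T / 2 ≤ t')
    (h4 : t' ≤ 2 * T) : ‖riemannZeta (cp t) - riemannZeta (cp t')‖ ≤ 100 * T * |t - t'| := by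
  have hd : ∀ x ∈ Icc (T / 2) (2 * T), HasDerivAt (fun x : ℝ => riemannZeta (cp x))
      (deriv riemannZeta (cp x) * I) x := by
    intro x hx
    have h := (zeta_diff (s := cp x) (by rw [cp_im]; linarith [hx.1])).hasDerivAt
    have h2 : HasDerivAt (fun x : ℝ => cp x) I x := by
      unfold cp
      simpa using ((ofRealCLM.hasDerivAt (x := x)).mul_const I).const_add (1 / 2 : ℂ)
    exact h.comp x h2
  have h := (convex_Icc (T / 2) (2 * T)).norm_image_sub_le_of_norm_hasDerivWithin_le
    (f := fun x : ℝ => riemannZeta (cp x)) (f' := fun x => deriv riemannZeta (cp x) * I)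
    (C := 100 * T) (fun y hy => (hd y hy).hasDerivWithinAt)
    (fun y hy => by
      rw [norm_mul, norm_I, mul_one]
      refine (deriv_bound (by linarith [hy.1])).trans ?_
      linarith [hy.2]) (x := t') (y := t) ⟨h3, h4⟩ ⟨h1, h2⟩
  simpa [Real.norm_eq_abs] using h

/-- the functional equation on the line -/
lemma fe_line {t : ℝ} (ht : 1 ≤ t) :
    (starRingEnd ℂ) (riemannZeta (cp t)) = XX (cp t) * riemannZeta (cp t) := by
  have h := zeta_fe (cp t) (by
    intro n hn
    have := congrArg Complex.im hn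
    simp at this
    linarith) (by
    intro hn
    have := congrArg Complex.im hn
    simp at this
    linarith)
  have e : 1 - cp t = (starRingEnd ℂ) (cp t) := by
    unfold cp
    rw [map_add, map_mul, conj_ofReal, conj_I, map_div₀, map_one]
    have : (starRingEnd ℂ) (2 : ℂ) = 2 := conj_ofNat 2
    rw [this]
    ring
  rw [e, riemannZeta_conj] at h
  exact h

lemma fe_rot {u : ℂ} (hu : ‖u‖ = 1) {t : ℝ} (ht : 1 ≤ t) :
    (starRingEnd ℂ) u * riemannZeta (cp t) =
      rot ((starRingEnd ℂ) u ^ 2) (cp t) *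
        (starRingEnd ℂ) ((starRingEnd ℂ) u * riemannZeta (cp t)) := by
  have h1 : (starRingEnd ℂ) u * u = 1 := by
    rw [mul_comm, mul_conj, normSq_eq_norm_sq, hu]; simp
  rw [map_mul, conj_conj, fe_line ht, rot]
  have h2 := XX_ne (s := cp t) (by simp) (by simpa using ht)
  calc (starRingEnd ℂ) u * riemannZeta (cp t)
      = (starRingEnd ℂ) u * ((starRingEnd ℂ) u * u) * ((XX (cp t))⁻¹ * XX (cp t)) *
          riemannZeta (cp t) := by rw [h1, inv_mul_cancel₀ h2]; ring
    _ = _ := by ring

/-- the size of the window -/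
noncomputable def W (T : ℝ) : ℝ := 4 * Real.log (100 * Real.log T)

lemma exp_W {T : ℝ} (hT : 3 ≤ T) : Real.exp (W T / 4) = 100 * Real.log T := by
  unfold W
  rw [mul_div_cancel_left₀ _ (by norm_num), Real.exp_log]
  have : 0 < Real.log T := Real.log_pos (by linarith)
  positivity

lemma W_small : ∀ᶠ T : ℝ in atTop, 3 * W (2 * T) + 3 ≤ T / 4 := by
  have h1 : Tendsto (fun T : ℝ => T / 4) atTop atTop := tendsto_id.atTop_div_const (by norm_num)
  have hW : ∀ᶠ T : ℝ in atTop, W (2 * T) ≤ 4 * Real.log (200 * T) := by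
    filter_upwards [eventually_ge_atTop 10] with T hT
    unfold W
    have h2 : 0 < Real.log (2 * T) := Real.log_pos (by linarith)
    have h3 : Real.log (2 * T) ≤ 2 * T := by
      have := Real.log_le_sub_one_of_pos (x := 2 * T) (by linarith)
      linarith
    have := Real.log_le_log (by positivity) (show 100 * Real.log (2 * T) ≤ 200 * T by linarith)
    linarith
  have h4 : ∀ᶠ T : ℝ in atTop, Real.log (200 * T) ≤ Real.log 200 + T / 100 := by
    have h5 := Real.isLittleO_log_id_atTop.bound (by norm_num : (0:ℝ) < 1 / 100)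
    filter_upwards [h5, eventually_ge_atTop 1] with T hT hT1
    rw [Real.log_mul (by norm_num) (by linarith)]
    rw [Real.norm_of_nonneg (Real.log_nonneg hT1), id, Real.norm_of_nonneg (by linarith)] at hT
    linarith
  have h8 : 0 ≤ Real.log 200 := Real.log_nonneg (by norm_num)
  filter_upwards [hW, h4, eventually_ge_atTop (100 * (Real.log 200 + 1))] with T h5 h6 h7
  linarith

lemma W_mono {T T' : ℝ} (h : 3 ≤ T) (h' : T ≤ T') : W T ≤ W T' := by
  unfold W
  have h1 : 0 < Real.log T := Real.log_pos (by linarith)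
  have := Real.log_le_log (by positivity) (show 100 * Real.log T ≤ 100 * Real.log T' by
    have := Real.log_le_log (by linarith) h'; linarith)
  linarith

lemma W_ge {T : ℝ} (h : 3 ≤ T) : 4 ≤ W T := by
  unfold W
  have h1 : 1 ≤ Real.log T := by
    rw [Real.le_log_iff_exp_le (by linarith)]
    have := Real.exp_one_lt_d9
    linarith
  have h2 : 1 ≤ Real.log (100 * Real.log T) := by
    rw [Real.le_log_iff_exp_le (by positivity)]
    have := Real.exp_one_lt_d9
    linarith
  linarith

lemma data : ∃ T1 : ℝ, 1000 ≤ T1 ∧ ∀ T : ℝ, T1 ≤ T → ∀ u : ℂ, ‖u‖ = 1 → ∀ M : ℝ, 1 ≤ M →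
    (∀ v r : ℝ, |v - T| ≤ W T + 1 → riemannZeta (cp v) = r * u → r ≤ M) →
    Data (fun s => (starRingEnd ℂ) u * riemannZeta s) (rot ((starRingEnd ℂ) u ^ 2)) T (W T)
      (1 / T ^ 3) (12 * T) 2 (M + 1) := by
  obtain ⟨K, hK, hX⟩ := XX_size
  obtain ⟨T1, hT1⟩ := eventually_atTop.1 W_small
  refine ⟨max (max T1 1000) (4 * Real.exp K), le_trans (le_max_right _ _) (le_max_left _ _),
    fun T hT u hu M hM hyp => ?_⟩
  have hTa : T1 ≤ T := le_trans (le_trans (le_max_left _ _) (le_max_left _ _)) hT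
  have hTb : 1000 ≤ T := le_trans (le_trans (le_max_right _ _) (le_max_left _ _)) hT
  have hTc : 4 * Real.exp K ≤ T := le_trans (le_max_right _ _) hT
  have hWT : W T + 1 ≤ T / 4 := by
    have h1 := hT1 T hTa
    have h2 := W_mono (T := T) (T' := 2 * T) (by linarith) (by linarith)
    have h3 := W_ge (T := T) (by linarith)
    linarith
  have hW0 := W_ge (T := T) (by linarith)
  have hcu : ‖(starRingEnd ℂ) u ^ 2‖ = 1 := by
    rw [norm_pow, Complex.norm_conj, hu, one_pow]
  have him : ∀ s, InR T (W T) s → T / 2 ≤ s.im ∧ s.im ≤ 5 / 4 * T := by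
    intro s hs
    have := abs_le.1 hs.2.2
    exact ⟨by linarith [this.1], by linarith [this.2]⟩
  have hF : ∀ s, InR T (W T) s → ‖(starRingEnd ℂ) u * riemannZeta s‖ ≤ 12 * T := by
    intro s hs
    obtain ⟨h1, h2⟩ := him s hs
    rw [norm_mul, Complex.norm_conj, hu, one_mul]
    have h3 := Pool.Agent.H388LH.zeta_growth (s := s) (by linarith [hs.1]) (by linarith)
    have h4 := norm_le_re_im (s := s) (by linarith [hs.1]) hs.2.1 (by linarith) h2
    linarith
  refine ⟨by linarith, by positivity, ?_, by linarith, by norm_num, by linarith, ?_, ?_, hF, ?_, ?_,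
    ?_, ?_, ?_, ?_⟩
  · rw [div_le_one (by positivity)]
    exact one_le_pow₀ (by linarith)
  · intro s hs
    obtain ⟨h1, h2⟩ := him s hs
    exact (zeta_diff (by linarith)).const_mul _
  · intro s hs
    obtain ⟨h1, h2⟩ := him s hs
    exact (hasDerivAt_rot _ (by linarith [hs.1]) (by linarith)).differentiableAt
  · intro s hs
    obtain ⟨h1, h2⟩ := him s hs
    unfold rot
    rw [norm_mul, hcu, one_mul, norm_inv]
    exact inv_le_one_of_one_le₀ (one_le_norm_XX hs.1 (by linarith [hs.2.1]) (by linarith))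
  · intro t _
    exact norm_rot_line hcu t
  · intro t ht
    have := abs_le.1 ht
    exact fe_rot hu (by linarith [this.1])
  · intro s hs hs2
    obtain ⟨h1, h2⟩ := him s hs
    have hre : 2 ≤ s.re := by
      rcases hs2 with h | h
      · rw [h]; norm_num
      · rw [h]; simp
    constructor
    · unfold rot
      rw [norm_mul, hcu, one_mul, norm_inv]
      have h3 := (hX s hs.1 (by linarith [hs.2.1]) (by linarith)).1
      have h4 : s.im ^ (1 : ℝ) ≤ s.im ^ (s.re - 1 / 2) :=
        Real.rpow_le_rpow_of_exponent_le (by linarith) (by linarith)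
      rw [Real.rpow_one] at h4
      have h5 : 2 ≤ ‖XX s‖ := by
        refine le_trans ?_ h3
        rw [Real.exp_neg, ← div_eq_inv_mul, le_div_iff₀ (Real.exp_pos _)]
        linarith
      rw [inv_le_comm₀ (by linarith) (by norm_num)]
      linarith
    · rw [norm_mul, Complex.norm_conj, hu, one_mul]
      exact norm_zeta_le_two hre
  · intro t ht hn
    have ht' := abs_le.1 ht
    have hT3 : 1 / T ^ 3 * T ^ 2 = 1 / T := by field_simp
    have hlog : Real.log t ≤ 2 * T := by
      have := Real.log_le_sub_one_of_pos (x := t) (by linarith [ht'.1])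
      linarith [ht'.2]
    have hκ : 1 / T ^ 3 ≤ 1 / (1000 * T) := by
      apply one_div_le_one_div_of_le (by positivity)
      nlinarith [sq_nonneg T]
    have hκ2 : 1 / T ^ 3 * Real.log t ≤ 1 / 32 := by
      calc 1 / T ^ 3 * Real.log t ≤ 1 / (1000 * T) * (2 * T) := by
            apply mul_le_mul hκ hlog (Real.log_nonneg (by linarith [ht'.1])) (by positivity)
        _ ≤ 1 / 32 := by
            have : 1 / (1000 * T) * (2 * T) = 1 / 500 := by field_simp; norm_num
            rw [this]; norm_num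
    obtain ⟨t', h1, h2⟩ := exists_near hcu (by linarith [ht'.1]) (by positivity) hκ2 hn
    have h1' : |t' - t| ≤ 1 / (250 * T) := by
      refine h1.trans ?_
      have : 4 * (1 / (1000 * T)) = 1 / (250 * T) := by field_simp; norm_num
      linarith
    have h1'' : |t' - t| ≤ 1 := by
      refine h1'.trans ?_
      rw [div_le_one (by positivity)]; linarith
    have hb := abs_le.1 h1''
    have hf := fe_rot (u := u) hu (t := t') (by linarith [hb.1, ht'.1])
    rw [h2, one_mul] at hf
    -- the value is real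
    have him0 : ((starRingEnd ℂ) u * riemannZeta (cp t')).im = 0 :=
      conj_eq_iff_im.1 hf.symm
    set a : ℝ := ((starRingEnd ℂ) u * riemannZeta (cp t')).re with ha
    have ha2 : (starRingEnd ℂ) u * riemannZeta (cp t') = a := by
      apply Complex.ext
      · simp [ha]
      · rw [him0]; simp
    have ha3 : riemannZeta (cp t') = a * u := by
      rw [← ha2]
      have h3 : u * (starRingEnd ℂ) u = 1 := by
        rw [mul_conj, normSq_eq_norm_sq, hu]; simp
      calc riemannZeta (cp t') = (u * (starRingEnd ℂ) u) * riemannZeta (cp t') := by rw [h3, one_mul]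
        _ = _ := by ring
    have ha4 : a ≤ M := by
      apply hyp t' a _ ha3
      have := abs_add_le (t' - t) (t - T)
      rw [sub_add_sub_cancel] at this
      linarith
    have h5 : ‖(starRingEnd ℂ) u * riemannZeta (cp t) - (starRingEnd ℂ) u * riemannZeta (cp t')‖ ≤ 1 := by
      rw [← mul_sub, norm_mul, Complex.norm_conj, hu, one_mul]
      refine (zeta_lip hTb (by linarith [ht'.1]) (by linarith [ht'.2])
        (by linarith [ht'.1, hb.1]) (by linarith [ht'.2, hb.2])).trans ?_
      rw [abs_sub_comm]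
      calc 100 * T * |t' - t| ≤ 100 * T * (1 / (250 * T)) :=
            mul_le_mul_of_nonneg_left h1' (by positivity)
        _ ≤ 1 := by
            have : 100 * T * (1 / (250 * T)) = 2 / 5 := by field_simp; norm_num
            rw [this]; norm_num
    have h6 := (re_le_norm _).trans h5
    rw [sub_re] at h6
    change ((starRingEnd ℂ) u * riemannZeta (cp t)).re ≤ M + 1
    linarith
  · rw [exp_W (by linarith)]
    have e1 : -(100 * Real.log T / 4) = Real.log T * (-25) := by ring
    rw [e1, Real.exp_mul, Real.exp_log (by linarith), Real.rpow_neg (by linarith)]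
    have e2 : T ^ (25 : ℝ) = T ^ 25 := by
      rw [← Real.rpow_natCast]; norm_num
    rw [e2, ← one_div, div_le_div_iff₀ (by positivity) (by positivity), one_mul]
    have e3 : (1 / T ^ 3) ^ 2 * T ^ 25 = T ^ 19 := by field_simp
    rw [e3]
    have e4 : (8 * (12 * T) ^ 2 : ℝ) = 1152 * T ^ 2 := by ring
    rw [e4]
    have e5 : T ^ 19 = T ^ 17 * T ^ 2 := by ring
    rw [e5]
    have e6 : (1152 : ℝ) ≤ T ^ 17 := by
      calc (1152 : ℝ) ≤ 1000 ^ 17 := by norm_num
        _ ≤ T ^ 17 := pow_le_pow_left₀ (by norm_num) hTb 17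
    exact mul_le_mul_of_nonneg_right e6 (by positivity)

/-- one-sided bounds on a ray bound `ζ` to the right of the critical line -/
theorem right_bound : ∃ T1 : ℝ, 1000 ≤ T1 ∧ ∀ T : ℝ, T1 ≤ T → ∀ u : ℂ, ‖u‖ = 1 → ∀ M : ℝ, 1 ≤ M →
    (∀ v r : ℝ, |v - T| ≤ W T + 1 → riemannZeta (cp v) = r * u → r ≤ M) →
    ∀ η : ℝ, 0 < η → η ≤ 1 / 2 → ‖riemannZeta (1 / 2 + (η : ℂ) + (T : ℂ) * I)‖ ≤ 480 * M / η := by
  obtain ⟨T1, h1, h⟩ := data
  refine ⟨T1, h1, fun T hT u hu M hM hyp η h0 h2 => ?_⟩
  have h3 := (h T hT u hu M hM hyp).bound h0 h2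
  rw [norm_mul, Complex.norm_conj, hu, one_mul] at h3
  refine h3.trans ?_
  apply div_le_div_of_nonneg_right _ h0.le
  linarith

end Pool.Agent.W188.Ray
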