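import Pool.Agent.W188.Ray.A4

set_option autoImplicit false

open Complex Filter Topology Set Metric

namespace Pool.Agent.W188.Ray

open H345 H345.Chi

lemma fe_left {s : ℂ} (h1 : 1 ≤ s.im) :
    ‖riemannZeta (1 - (starRingEnd ℂ) s)‖ = ‖XX s‖ * ‖riemannZeta s‖ := by
  have h := zeta_fe ((starRingEnd ℂ) s) (by
    intro n hn
    have := congrArg Complex.im hn
    simp at this
    linarith) (by
    intro hn
    have := congrArg Complex.im hn
    simp at this
    linarith)
  rw [h, XX_conj, riemannZeta_conj, norm_mul, norm_conj, norm_conj]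

/-- from the right of the critical line to the critical line -/
lemma crit : ∃ C T2 : ℝ, 1 ≤ C ∧ 1000 ≤ T2 ∧ ∀ T : ℝ, T2 ≤ T → ∀ b : ℝ, 1 ≤ b →
    (∀ t : ℝ, |t - T| ≤ W T →
      ‖riemannZeta (1 / 2 + ((1 / Real.log T : ℝ) : ℂ) + (t : ℂ) * I)‖ ≤ b) →
    ‖riemannZeta (cp T)‖ ≤ C * b := by
  obtain ⟨K, hK, hX⟩ := XX_size
  obtain ⟨T1, hT1⟩ := eventually_atTop.1 W_small
  refine ⟨Real.exp (K + 3), max T1 1000, Real.one_le_exp (by linarith), le_max_right _ _,
    fun T hT b hb hyp => ?_⟩
  have hTa : T1 ≤ T := le_trans (le_max_left _ _) hT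
  have hTb : 1000 ≤ T := le_trans (le_max_right _ _) hT
  have hWT : W T + 1 ≤ T / 4 := by
    have h1 := hT1 T hTa
    have h2 := W_mono (T := T) (T' := 2 * T) (by linarith) (by linarith)
    have h3 := W_ge (T := T) (by linarith)
    linarith
  have hW0 := W_ge (T := T) (by linarith)
  have hlog : 4 ≤ Real.log T := by
    rw [Real.le_log_iff_exp_le (by linarith)]
    have h1 := Real.exp_one_lt_d9
    have h2 : Real.exp 4 = Real.exp 1 ^ 4 := by
      rw [← Real.exp_nat_mul]; norm_num
    rw [h2]
    have h3 : Real.exp 1 ^ 4 ≤ 3 ^ 4 := pow_le_pow_left₀ (Real.exp_pos 1).le (by linarith) 4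
    linarith
  set η : ℝ := 1 / Real.log T with hη
  have hη0 : 0 < η := by positivity
  have hη1 : η ≤ 1 / 4 := by
    rw [hη]; exact one_div_le_one_div_of_le (by norm_num) hlog
  set U : Set ℂ := (Ioo (1 / 2 - η) (1 / 2 + η)) ×ℂ (Ioo (T - W T) (T + W T)) with hU
  have hcl : closure U = (Icc (1 / 2 - η) (1 / 2 + η)) ×ℂ (Icc (T - W T) (T + W T)) := by
    rw [hU, closure_reProdIm, closure_Ioo (by linarith), closure_Ioo (by linarith)]
  have hin : ∀ z ∈ closure U, 1 / 4 ≤ z.re ∧ z.re ≤ 3 / 4 ∧ |z.im - T| ≤ W T ∧ T / 2 ≤ z.im ∧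
      z.im ≤ 5 / 4 * T := by
    intro z hz
    rw [hcl, mem_reProdIm] at hz
    exact ⟨by linarith [hz.1.1], by linarith [hz.1.2],
      abs_le.2 ⟨by linarith [hz.2.1], by linarith [hz.2.2]⟩,
      by linarith [hz.2.1], by linarith [hz.2.2]⟩
  have hbd : Bornology.IsBounded U := (isBounded_Ioo _ _).reProdIm (isBounded_Ioo _ _)
  have hd : DiffContOnCl ℂ (fun z => riemannZeta z * ker T z) U := by
    apply DifferentiableOn.diffContOnCl
    intro z hz
    obtain ⟨h1, h2, h3, h4, h5⟩ := hin z hz
    exact ((zeta_diff (by linarith)).mul (ker_diff T z)).differentiableWithinAt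
  have hexp : 1 ≤ Real.exp (K + 2) := Real.one_le_exp (by linarith)
  have hfr : ∀ z ∈ frontier U, ‖riemannZeta z * ker T z‖ ≤ Real.exp (K + 2) * b := by
    intro z hz
    obtain ⟨h1, h2, h3, h4, h5⟩ := hin z (frontier_subset_closure hz)
    rw [norm_mul]
    have hk1 := norm_ker_le_one (T := T) (s := z) (by linarith) (by linarith)
    rw [hU, frontier_reProdIm, closure_Ioo (by linarith), frontier_Ioo (by linarith),
      frontier_Ioo (by linarith)] at hz
    rcases hz with hz | hz
    · -- top and bottom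
      rw [mem_reProdIm] at hz
      have h6 : |z.im - T| = W T := by
        rcases hz.2 with h | h
        · rw [h, abs_of_nonpos (by linarith)]; ring
        · rw [mem_singleton_iff] at h
          rw [h, abs_of_nonneg (by linarith)]; ring
      have h7 := norm_ker_le (T := T) (s := z) (by linarith) (by linarith)
      rw [h6, exp_W (by linarith)] at h7
      have e1 : -(100 * Real.log T / 4) = Real.log T * (-25) := by ring
      rw [e1, Real.exp_mul, Real.exp_log (by linarith)] at h7
      have h8 : T ^ (-25 : ℝ) ≤ T ^ (-2 : ℝ) :=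
        Real.rpow_le_rpow_of_exponent_le (by linarith) (by norm_num)
      have h9 := Pool.Agent.H388LH.zeta_growth (s := z) h1 (by linarith)
      have h10 := norm_le_re_im (s := z) (by linarith) h2 (by linarith) h5
      have h11 : ‖riemannZeta z‖ ≤ 12 * T := by linarith
      calc ‖riemannZeta z‖ * ‖ker T z‖ ≤ 12 * T * T ^ (-2 : ℝ) :=
            mul_le_mul h11 (h7.trans h8) (norm_nonneg _) (by linarith)
        _ ≤ 1 := by
            rw [Real.rpow_neg (by linarith)]
            have : T ^ (2 : ℝ) = T ^ 2 := by rw [← Real.rpow_natCast]; norm_num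
            rw [this, ← div_eq_mul_inv, div_le_one (by positivity)]
            nlinarith
        _ ≤ Real.exp (K + 2) * b := by nlinarith
    · rw [mem_reProdIm] at hz
      rcases hz.1 with h | h
      · -- left side
        set s : ℂ := 1 / 2 + (η : ℂ) + (z.im : ℂ) * I with hs
        have hsre : s.re = 1 / 2 + η := by simp [hs]
        have hsim : s.im = z.im := by simp [hs]
        have e2 : 1 - (starRingEnd ℂ) s = z := by
          apply Complex.ext
          · rw [sub_re, one_re, conj_re, hsre, h]; ring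
          · rw [sub_im, one_im, conj_im, hsim]; ring
        have h6 := fe_left (s := s) (by rw [hsim]; linarith)
        rw [e2] at h6
        have h7 := (hX s (by rw [hsre]; linarith) (by rw [hsre]; linarith)
          (by rw [hsim]; linarith)).2
        rw [hsre, hsim, add_sub_cancel_left] at h7
        have h8 : z.im ^ η ≤ Real.exp 2 := by
          rw [Real.rpow_def_of_pos (by linarith)]
          apply Real.exp_le_exp.2
          have h9 : Real.log z.im ≤ 2 * Real.log T := by
            have h10 := Real.log_le_log (by linarith) (show z.im ≤ T ^ 2 by nlinarith)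
            rw [Real.log_pow] at h10
            exact_mod_cast h10
          calc Real.log z.im * η ≤ 2 * Real.log T * η := mul_le_mul_of_nonneg_right h9 hη0.le
            _ = 2 := by rw [hη]; field_simp
        have h9 : ‖XX s‖ ≤ Real.exp (K + 2) := by
          rw [Real.exp_add]
          exact h7.trans (mul_le_mul_of_nonneg_left h8 (Real.exp_pos _).le)
        have h10 := hyp z.im h3
        calc ‖riemannZeta z‖ * ‖ker T z‖ ≤ ‖riemannZeta z‖ * 1 :=
              mul_le_mul_of_nonneg_left hk1 (norm_nonneg _)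
          _ = ‖XX s‖ * ‖riemannZeta s‖ := by rw [mul_one, h6]
          _ ≤ _ := mul_le_mul h9 h10 (norm_nonneg _) (Real.exp_pos _).le
      · -- right side
        rw [mem_singleton_iff] at h
        have e2 : z = 1 / 2 + (η : ℂ) + (z.im : ℂ) * I := by
          apply Complex.ext
          · simp [h]
          · simp
        have h10 := hyp z.im h3
        rw [← e2] at h10
        calc ‖riemannZeta z‖ * ‖ker T z‖ ≤ b * 1 :=
              mul_le_mul h10 hk1 (norm_nonneg _) (by linarith)
          _ ≤ _ := by nlinarith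
  have hsc : cp T ∈ closure U := by
    rw [hcl, mem_reProdIm, cp_re, cp_im]
    exact ⟨⟨by linarith, by linarith⟩, ⟨by linarith, by linarith⟩⟩
  have h := norm_le_of_forall_mem_frontier_norm_le hbd hd hfr hsc
  rw [norm_mul, ker_line, norm_real, Real.norm_of_nonneg (Real.exp_pos _).le, sub_self, zero_div,
    Real.cosh_zero] at h
  have e3 : Real.exp (K + 3) = Real.exp (K + 2) * Real.exp 1 := by
    rw [← Real.exp_add]; congr 1; ring
  have e4 : Real.exp (-1) * Real.exp 1 = 1 := by
    rw [← Real.exp_add]; simp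
  calc ‖riemannZeta (cp T)‖ = (‖riemannZeta (cp T)‖ * Real.exp (-1)) * Real.exp 1 := by
        rw [mul_assoc, e4, mul_one]
    _ ≤ (Real.exp (K + 2) * b) * Real.exp 1 := mul_le_mul_of_nonneg_right h (Real.exp_pos _).le
    _ = Real.exp (K + 3) * b := by rw [e3]; ring

/-- the local inequality -/
theorem local_main : ∃ C T0 : ℝ, 1 ≤ C ∧ 1000 ≤ T0 ∧ ∀ T : ℝ, T0 ≤ T → ∀ u : ℂ, ‖u‖ = 1 →
    ∀ M : ℝ, 1 ≤ M →
    (∀ v r : ℝ, |v - T| ≤ 3 * W (2 * T) → riemannZeta (cp v) = r * u → r ≤ M) →
    ‖riemannZeta (cp T)‖ ≤ C * Real.log T * M := by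
  obtain ⟨C, T2, hC, hT2, hc⟩ := crit
  obtain ⟨T1, hT1, hr⟩ := right_bound
  obtain ⟨T3, hT3⟩ := eventually_atTop.1 W_small
  refine ⟨480 * C, max (max (2 * T1) T2) T3, by linarith, ?_, fun T hT u hu M hM hyp => ?_⟩
  · exact le_trans hT2 (le_trans (le_max_right _ _) (le_max_left _ _))
  have hTa : 2 * T1 ≤ T := le_trans (le_trans (le_max_left _ _) (le_max_left _ _)) hT
  have hTb : T2 ≤ T := le_trans (le_trans (le_max_right _ _) (le_max_left _ _)) hT
  have hTc : T3 ≤ T := le_trans (le_max_right _ _) hT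
  have hWs := hT3 T hTc
  have hlog : 2 ≤ Real.log T := by
    rw [Real.le_log_iff_exp_le (by linarith)]
    have h1 := Real.exp_one_lt_d9
    have h2 : Real.exp 2 = Real.exp 1 ^ 2 := by
      rw [← Real.exp_nat_mul]; norm_num
    rw [h2]
    have h3 : Real.exp 1 ^ 2 ≤ 3 ^ 2 := pow_le_pow_left₀ (Real.exp_pos 1).le (by linarith) 2
    linarith
  have hW1 : W T ≤ W (2 * T) := W_mono (by linarith) (by linarith)
  have hW0 := W_ge (T := T) (by linarith)
  have h1 : ∀ t : ℝ, |t - T| ≤ W T →
      ‖riemannZeta (1 / 2 + ((1 / Real.log T : ℝ) : ℂ) + (t : ℂ) * I)‖ ≤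
        480 * M / (1 / Real.log T) := by
    intro t ht
    have ht' := abs_le.1 ht
    have hWt : W t ≤ W (2 * T) := W_mono (by linarith [ht'.1]) (by linarith [ht'.2])
    apply hr t (by linarith [ht'.1]) u hu M hM
    · intro v r hv hz
      apply hyp v r _ hz
      have := abs_add_le (v - t) (t - T)
      rw [sub_add_sub_cancel] at this
      linarith
    · positivity
    · rw [one_div_le_one_div (by linarith) (by norm_num)]
      linarith
  have h2 : 1 ≤ 480 * M / (1 / Real.log T) := by
    rw [div_div_eq_mul_div, div_one]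
    nlinarith
  have h3 := hc T hTb _ h2 h1
  rw [div_div_eq_mul_div, div_one] at h3
  linarith

lemma W_loglog : ∀ᶠ T : ℝ in atTop, 3 * W (2 * T) ≤ 30 * Real.log (Real.log T) := by
  have h1 : Tendsto (fun T : ℝ => Real.log (Real.log T)) atTop atTop :=
    Real.tendsto_log_atTop.comp Real.tendsto_log_atTop
  filter_upwards [h1.eventually_ge_atTop (Real.log 200 * 4), eventually_ge_atTop 10] with T h2 hT
  have hl : 1 ≤ Real.log T := by
    rw [Real.le_log_iff_exp_le (by linarith)]
    have := Real.exp_one_lt_d9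
    linarith
  unfold W
  have h3 : Real.log (2 * T) ≤ 2 * Real.log T := by
    rw [Real.log_mul (by norm_num) (by linarith)]
    have h4 : Real.log 2 ≤ 1 := by
      have := Real.log_two_lt_d9
      linarith
    linarith
  have h2T : 0 < Real.log (2 * T) := Real.log_pos (by linarith)
  have h5 := Real.log_le_log (by positivity) (show 100 * Real.log (2 * T) ≤ 200 * Real.log T by linarith)
  have e : Real.log (200 * Real.log T) = Real.log 200 + Real.log (Real.log T) :=
    Real.log_mul (by norm_num) (by linarith)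
  have h6 : 0 ≤ Real.log (Real.log T) := Real.log_nonneg hl
  linarith

/-- **directions of large values** -/
theorem directions : ∃ C T0 : ℝ, 0 < C ∧ 1000 ≤ T0 ∧ ∀ T : ℝ, T0 ≤ T → ∀ u : ℂ, ‖u‖ = 1 →
    C * Real.log T ≤ ‖riemannZeta (cp T)‖ →
    ∃ v r : ℝ, |v - T| ≤ C * Real.log (Real.log T) ∧ riemannZeta (cp v) = r * u ∧
      ‖riemannZeta (cp T)‖ ≤ C * Real.log T * r := by
  obtain ⟨C, T0, hC, hT0, h⟩ := local_main
  obtain ⟨T1, hT1⟩ := eventually_atTop.1 W_loglog
  refine ⟨2 * C + 30, max T0 T1, by linarith, le_trans hT0 (le_max_left _ _),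
    fun T hT u hu hz => ?_⟩
  have hTa : T0 ≤ T := le_trans (le_max_left _ _) hT
  have hTb : T1 ≤ T := le_trans (le_max_right _ _) hT
  have hW := hT1 T hTb
  have hlog : 1 ≤ Real.log T := by
    rw [Real.le_log_iff_exp_le (by linarith)]
    have := Real.exp_one_lt_d9
    linarith
  have hW0 := W_ge (T := 2 * T) (by linarith)
  have hll : 0 ≤ Real.log (Real.log T) := Real.log_nonneg hlog
  by_contra hcon
  push Not at hcon
  set z := ‖riemannZeta (cp T)‖ with hzd
  have hC2 : 0 < (2 * C + 30) * Real.log T := by positivity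
  have h1 := h T hTa u hu (z / ((2 * C + 30) * Real.log T)) (by
    rw [le_div_iff₀ hC2, one_mul]; exact hz) (by
    intro v r hv hr
    have h2 := hcon v r (by
      refine hv.trans (hW.trans ?_)
      nlinarith) hr
    rw [le_div_iff₀ hC2]
    linarith)
  have e : C * Real.log T * (z / ((2 * C + 30) * Real.log T)) = z * (C / (2 * C + 30)) := by
    field_simp
  rw [e] at h1
  have h3 : C / (2 * C + 30) ≤ 1 / 2 := by
    rw [div_le_iff₀ (by linarith)]; linarith
  have h4 : 0 < z := by linarith
  nlinarith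

end Pool.Agent.W188.Ray
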