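import Pool.Agent.W188.Ray.A1

set_option autoImplicit false

open Complex Filter Topology Set Metric

namespace Pool.Agent.W188.Ray

variable {f X : ℂ → ℂ} {T H κ F B M : ℝ}

lemma re_div_line {w Y : ℂ} {r M : ℝ} (hY : ‖Y‖ = 1) (hw : w = Y * (starRingEnd ℂ) w) :
    (((M : ℂ) - w) / (1 - (r : ℂ) * Y)).re =
      (M * (1 - r * Y.re) - (1 - r) * w.re) / ‖1 - (r : ℂ) * Y‖ ^ 2 := by
  have hXX : Y * (starRingEnd ℂ) Y = 1 := by
    rw [mul_conj, normSq_eq_norm_sq, hY]; simp
  have h1 : w * (starRingEnd ℂ) Y = (starRingEnd ℂ) w := by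
    calc w * (starRingEnd ℂ) Y = (Y * (starRingEnd ℂ) w) * (starRingEnd ℂ) Y := by rw [← hw]
      _ = (Y * (starRingEnd ℂ) Y) * (starRingEnd ℂ) w := by ring
      _ = _ := by rw [hXX, one_mul]
  rw [div_eq_mul_inv, inv_def, ← mul_assoc, normSq_eq_norm_sq]
  have h2 : ((M : ℂ) - w) * (starRingEnd ℂ) (1 - (r : ℂ) * Y) =
      M - r * M * (starRingEnd ℂ) Y - w + r * (starRingEnd ℂ) w := by
    rw [map_sub, map_mul, map_one, conj_ofReal, ← h1]; ring
  rw [h2, re_mul_ofReal]
  have h3 : ((M : ℂ) - r * M * (starRingEnd ℂ) Y - w + r * (starRingEnd ℂ) w).re =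
      M * (1 - r * Y.re) - (1 - r) * w.re := by
    simp only [add_re, sub_re, mul_re, ofReal_re, ofReal_im, conj_re, conj_im, mul_im]
    ring
  rw [h3, div_eq_mul_inv]

/-- the parameter `1 - r` -/
noncomputable def del (κ F : ℝ) : ℝ := κ ^ 2 / (4 * F)

/-- the auxiliary function -/
noncomputable def GG (f X : ℂ → ℂ) (T κ F B M : ℝ) (s : ℂ) : ℂ :=
  ((M : ℂ) - f s) / (1 - ((1 - del κ F : ℝ) : ℂ) * X s) * ker T s + ((2 * (M + B) + 1 : ℝ) : ℂ)

namespace Data

lemma del_pos (D : Data f X T H κ F B M) : 0 < del κ F := by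
  have := D.hκ0; have := D.hF
  unfold del; positivity

lemma del_le (D : Data f X T H κ F B M) : del κ F ≤ 1 / 4 := by
  have h1 := D.hκ0; have h2 := D.hF; have h3 := D.hκ1
  unfold del
  rw [div_le_iff₀ (by positivity)]
  nlinarith

lemma den_ge (D : Data f X T H κ F B M) {s : ℂ} (hs : InR T H s) :
    del κ F ≤ ‖1 - ((1 - del κ F : ℝ) : ℂ) * X s‖ := by
  have h1 := D.X1 s hs
  have h2 := D.del_le
  have h3 := norm_sub_norm_le (1 : ℂ) (((1 - del κ F : ℝ) : ℂ) * X s)
  rw [norm_one, norm_mul, norm_real, Real.norm_of_nonneg (by linarith)] at h3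
  have h4 : (1 - del κ F) * ‖X s‖ ≤ (1 - del κ F) * 1 :=
    mul_le_mul_of_nonneg_left h1 (by linarith)
  linarith

lemma den_le (D : Data f X T H κ F B M) {s : ℂ} (hs : InR T H s) :
    ‖1 - ((1 - del κ F : ℝ) : ℂ) * X s‖ ≤ 2 := by
  have h1 := D.X1 s hs
  have h2 := D.del_le
  have h0 := D.del_pos
  have h3 := norm_sub_le (1 : ℂ) (((1 - del κ F : ℝ) : ℂ) * X s)
  rw [norm_one, norm_mul, norm_real, Real.norm_of_nonneg (by linarith)] at h3
  have h4 : (1 - del κ F) * ‖X s‖ ≤ 1 * 1 :=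
    mul_le_mul (by linarith) h1 (norm_nonneg _) (by norm_num)
  linarith

lemma den_half (D : Data f X T H κ F B M) {s : ℂ} (hX : ‖X s‖ ≤ 1 / 2) :
    1 / 2 ≤ ‖1 - ((1 - del κ F : ℝ) : ℂ) * X s‖ := by
  have h2 := D.del_le
  have h0 := D.del_pos
  have h3 := norm_sub_norm_le (1 : ℂ) (((1 - del κ F : ℝ) : ℂ) * X s)
  rw [norm_one, norm_mul, norm_real, Real.norm_of_nonneg (by linarith)] at h3
  have h4 : (1 - del κ F) * ‖X s‖ ≤ 1 * (1 / 2) :=
    mul_le_mul (by linarith) hX (norm_nonneg _) (by norm_num)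
  linarith

lemma GG_diff (D : Data f X T H κ F B M) {s : ℂ} (hs : InR T H s) :
    DifferentiableAt ℂ (GG f X T κ F B M) s := by
  have h1 := D.fd s hs
  have h2 := D.Xd s hs
  have h3 := ker_diff T s
  have h4 : 1 - ((1 - del κ F : ℝ) : ℂ) * X s ≠ 0 := by
    intro h
    have := D.den_ge hs
    rw [h, norm_zero] at this
    linarith [D.del_pos]
  unfold GG
  exact ((((differentiableAt_const _).sub h1).div
    ((differentiableAt_const _).sub ((differentiableAt_const _).mul h2)) h4).mul h3).add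
    (differentiableAt_const _)

/-- the positivity on the line -/
lemma line (D : Data f X T H κ F B M) {t : ℝ} (ht : |t - T| ≤ H) :
    1 ≤ (GG f X T κ F B M (cp t)).re := by
  have hin : InR T H (cp t) := ⟨by simp, by simp; norm_num, by simpa using ht⟩
  have hX := D.Xline t ht
  have hf := D.fe t ht
  have hB := D.hB; have hM := D.hM; have hF := D.hF
  have h0 := D.del_pos; have h1 := D.del_le
  have hk0 := D.hκ0
  unfold GG
  rw [ker_line, add_re, ofReal_re, re_mul_ofReal, re_div_line hX hf]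
  suffices hs : 0 ≤ M * (1 - (1 - del κ F) * (X (cp t)).re) - (1 - (1 - del κ F)) * (f (cp t)).re by
    have h2 := mul_nonneg (div_nonneg hs (sq_nonneg ‖1 - ((1 - del κ F : ℝ) : ℂ) * X (cp t)‖))
      (Real.exp_pos (-Real.cosh ((t - T) / 4))).le
    linarith
  have hre : (X (cp t)).re ≤ 1 := (re_le_norm _).trans hX.le
  have hsq : ‖1 - X (cp t)‖ ^ 2 = 2 * (1 - (X (cp t)).re) := by
    rw [← normSq_eq_norm_sq, normSq_sub, normSq_eq_norm_sq (X (cp t)), hX]
    simp
    ring
  rcases le_or_gt ‖1 - X (cp t)‖ κ with hn | hn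
  · have hw := D.near t ht hn
    have e : M * (1 - (1 - del κ F) * (X (cp t)).re) - (1 - (1 - del κ F)) * (f (cp t)).re =
      del κ F * (M - (f (cp t)).re) + M * (1 - del κ F) * (1 - (X (cp t)).re) := by ring
    rw [e]
    have a1 : 0 ≤ del κ F * (M - (f (cp t)).re) := mul_nonneg h0.le (by linarith)
    have a2 : 0 ≤ M * (1 - del κ F) * (1 - (X (cp t)).re) :=
      mul_nonneg (mul_nonneg (by linarith) (by linarith)) (by linarith)
    linarith
  · have hw : (f (cp t)).re ≤ F := (re_le_norm _).trans (D.fF _ hin)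
    have e : M * (1 - (1 - del κ F) * (X (cp t)).re) - (1 - (1 - del κ F)) * (f (cp t)).re =
      del κ F * M - del κ F * (f (cp t)).re + M * (1 - del κ F) * (1 - (X (cp t)).re) := by ring
    rw [e]
    have h3 : κ ^ 2 ≤ 2 * (1 - (X (cp t)).re) := by
      rw [← hsq]; exact pow_le_pow_left₀ hk0.le hn.le 2
    have h4 : del κ F * (f (cp t)).re ≤ κ ^ 2 / 4 := by
      calc del κ F * (f (cp t)).re ≤ del κ F * F := mul_le_mul_of_nonneg_left hw h0.le
        _ = κ ^ 2 / 4 := by unfold del; field_simp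
    have h5 : (3 / 4) * (κ ^ 2 / 2) ≤ M * (1 - del κ F) * (1 - (X (cp t)).re) := by
      have : (1 : ℝ) * (3 / 4) ≤ M * (1 - del κ F) :=
        mul_le_mul hM (by linarith) (by norm_num) (by linarith)
      have h6 : 0 ≤ κ ^ 2 / 2 := by positivity
      calc (3 / 4) * (κ ^ 2 / 2) ≤ (M * (1 - del κ F)) * (κ ^ 2 / 2) :=
            mul_le_mul_of_nonneg_right (by linarith) h6
        _ ≤ _ := mul_le_mul_of_nonneg_left (by linarith) (by linarith)
    have h7 : 0 ≤ del κ F * M := by positivity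
    have h8 : 0 ≤ κ ^ 2 := sq_nonneg _
    linarith

lemma quot_le (D : Data f X T H κ F B M) {s : ℂ} {a d k : ℝ} (ha : ‖f s‖ ≤ a)
    (hd : 0 < d) (hd' : d ≤ ‖1 - ((1 - del κ F : ℝ) : ℂ) * X s‖) (hk : ‖ker T s‖ ≤ k) :
    ‖((M : ℂ) - f s) / (1 - ((1 - del κ F : ℝ) : ℂ) * X s) * ker T s‖ ≤ (M + a) / d * k := by
  have hM := D.hM
  rw [norm_mul, norm_div]
  have h1 : ‖(M : ℂ) - f s‖ ≤ M + a := by
    refine (norm_sub_le _ _).trans ?_
    rw [norm_real, Real.norm_of_nonneg (by linarith)]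
    linarith
  have h2 : 0 ≤ a := (norm_nonneg _).trans ha
  apply mul_le_mul _ hk (norm_nonneg _) (by positivity)
  exact div_le_div₀ (by linarith) h1 hd hd'

lemma re_ge_of_norm {z : ℂ} {c : ℝ} (h : ‖z‖ ≤ c) : 1 ≤ (z + ((c + 1 : ℝ) : ℂ)).re := by
  rw [add_re, ofReal_re]
  have := (abs_le.1 (abs_re_le_norm z)).1
  linarith

/-- the sides on the top and the bottom -/
lemma top (D : Data f X T H κ F B M) {s : ℂ} (hs : InR T H s) (h : |s.im - T| = H) :
    1 ≤ (GG f X T κ F B M s).re := by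
  have hB := D.hB; have hM := D.hM; have hF := D.hF
  have hk0 := D.hκ0
  unfold GG
  apply re_ge_of_norm
  have h1 := norm_ker_le (T := T) (s := s) (by linarith [hs.1]) hs.2.1
  rw [h] at h1
  have h2 := D.quot_le (D.fF s hs) D.del_pos (D.den_ge hs) (h1.trans D.small)
  refine h2.trans ?_
  have e : (M + F) / del κ F * (κ ^ 2 / (8 * F ^ 2)) = (M + F) / (2 * F) := by
    unfold del
    field_simp
    ring
  rw [e, div_le_iff₀ (by positivity)]
  nlinarith

/-- the right side -/
lemma rt (D : Data f X T H κ F B M) {s : ℂ} (hs : InR T H s)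
    (h : s.re = 7 / 2 ∨ s = 2 + (T : ℂ) * I) :
    ‖((M : ℂ) - f s) / (1 - ((1 - del κ F : ℝ) : ℂ) * X s) * ker T s‖ ≤ 2 * (M + B) := by
  obtain ⟨h1, h2⟩ := D.right s hs h
  have h3 := D.quot_le h2 (by norm_num) (D.den_half h1)
    (norm_ker_le_one (T := T) (s := s) (by linarith [hs.1]) hs.2.1)
  refine h3.trans (le_of_eq ?_)
  ring

/-- positivity in the rectangle -/
lemma pos (D : Data f X T H κ F B M) {s : ℂ} (hs : InR T H s) : 1 ≤ (GG f X T κ F B M s).re := by
  have hH := D.hH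
  set U : Set ℂ := (Ioo (1 / 2 : ℝ) (7 / 2)) ×ℂ (Ioo (T - H) (T + H)) with hU
  have hcl : closure U = (Icc (1 / 2 : ℝ) (7 / 2)) ×ℂ (Icc (T - H) (T + H)) := by
    rw [hU, closure_reProdIm, closure_Ioo (by norm_num), closure_Ioo (by linarith)]
  have hin : ∀ z ∈ closure U, InR T H z := by
    intro z hz
    rw [hcl, mem_reProdIm] at hz
    exact ⟨hz.1.1, hz.1.2, abs_le.2 ⟨by linarith [hz.2.1], by linarith [hz.2.2]⟩⟩
  have hbd : Bornology.IsBounded U := (isBounded_Ioo _ _).reProdIm (isBounded_Ioo _ _)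
  have hd : DiffContOnCl ℂ (fun z => cexp (-(GG f X T κ F B M z))) U := by
    apply DifferentiableOn.diffContOnCl
    intro z hz
    exact ((D.GG_diff (hin z hz)).neg.cexp).differentiableWithinAt
  have hfr : ∀ z ∈ frontier U, ‖cexp (-(GG f X T κ F B M z))‖ ≤ Real.exp (-1) := by
    intro z hz
    have hz' := hin z (frontier_subset_closure hz)
    rw [norm_exp, neg_re]
    apply Real.exp_le_exp.2
    rw [neg_le_neg_iff]
    rw [hU, frontier_reProdIm, closure_Ioo (by norm_num), frontier_Ioo (by linarith),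
      frontier_Ioo (by norm_num)] at hz
    rcases hz with hz | hz
    · rw [mem_reProdIm] at hz
      apply D.top hz'
      rcases hz.2 with h | h
      · rw [h, abs_of_nonpos (by linarith)]; ring
      · rw [mem_singleton_iff] at h
        rw [h, abs_of_nonneg (by linarith)]; ring
    · rw [mem_reProdIm] at hz
      rcases hz.1 with h | h
      · rw [eq_cp h]
        exact D.line hz'.2.2
      · rw [mem_singleton_iff] at h
        have := D.rt hz' (Or.inl h)
        exact re_ge_of_norm this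
  have hsc : s ∈ closure U := by
    rw [hcl, mem_reProdIm]
    have := abs_le.1 hs.2.2
    exact ⟨⟨hs.1, hs.2.1⟩, ⟨by linarith [this.1], by linarith [this.2]⟩⟩
  have h := norm_le_of_forall_mem_frontier_norm_le hbd hd hfr hsc
  rw [norm_exp, neg_re] at h
  have := Real.exp_le_exp.1 h
  linarith

/-- the pointwise bound -/
theorem bound (D : Data f X T H κ F B M) {η : ℝ} (h0 : 0 < η) (h1 : η ≤ 1 / 2) :
    ‖f (1 / 2 + (η : ℂ) + (T : ℂ) * I)‖ ≤ 120 * (M + B) / η := by
  have hH := D.hH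
  have hB := D.hB; have hM := D.hM; have hF := D.hF
  set c : ℂ := 2 + (T : ℂ) * I with hc
  set s : ℂ := 1 / 2 + (η : ℂ) + (T : ℂ) * I with hs
  have hcre : c.re = 2 := by simp [hc]
  have hcim : c.im = T := by simp [hc]
  have hsre : s.re = 1 / 2 + η := by simp [hs]
  have hsim : s.im = T := by simp [hs]
  have hcin : InR T H c := ⟨by rw [hcre]; norm_num, by rw [hcre]; norm_num,
    by rw [hcim, sub_self, abs_zero]; linarith⟩
  have hsin : InR T H s := ⟨by rw [hsre]; linarith, by rw [hsre]; linarith,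
    by rw [hsim, sub_self, abs_zero]; linarith⟩
  have hball : ∀ z ∈ ball (0 : ℂ) (3 / 2), InR T H (c + z) := by
    intro z hz
    rw [mem_ball_zero_iff] at hz
    have h2 := abs_le.1 ((abs_re_le_norm z).trans hz.le)
    have h3 := (abs_im_le_norm z).trans hz.le
    refine ⟨?_, ?_, ?_⟩
    · rw [add_re, hcre]; linarith [h2.1]
    · rw [add_re, hcre]; linarith [h2.2]
    · rw [add_im, hcim, add_sub_cancel_left]; linarith
  have hBC := borelCaratheodory (f := fun z => -(GG f X T κ F B M (c + z))) (M := 1) (R := 3 / 2)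
    (z := s - c) one_pos
    (by
      intro z hz
      refine (DifferentiableAt.neg ?_).differentiableWithinAt
      exact (D.GG_diff (hball z hz)).comp z (by fun_prop))
    (by
      intro z hz
      have := D.pos (hball z hz)
      simp only [mem_ofPred_eq, neg_re]
      linarith)
    (by norm_num)
    (by
      rw [mem_ball_zero_iff]
      have : s - c = ((η - 3 / 2 : ℝ) : ℂ) := by
        rw [hs, hc]; push_cast; ring
      rw [this, norm_real, Real.norm_of_nonpos (by linarith)]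
      linarith)
  have hsc : ‖s - c‖ = 3 / 2 - η := by
    have : s - c = ((η - 3 / 2 : ℝ) : ℂ) := by
      rw [hs, hc]; push_cast; ring
    rw [this, norm_real, Real.norm_of_nonpos (by linarith)]
    linarith
  simp only [add_zero, norm_neg, add_sub_cancel] at hBC
  rw [hsc] at hBC
  have e1 : (3 / 2 - (3 / 2 - η) : ℝ) = η := by ring
  rw [e1] at hBC
  -- the value at the centre
  have hGc : ‖GG f X T κ F B M c‖ ≤ 4 * (M + B) + 1 := by
    have h2 := D.rt hcin (Or.inr hc)
    unfold GG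
    refine (norm_add_le _ _).trans ?_
    rw [norm_real, Real.norm_of_nonneg (by linarith)]
    linarith
  have hGs : ‖GG f X T κ F B M s‖ ≤ 18 * (M + B) / η := by
    refine hBC.trans ?_
    rw [← add_div]
    apply div_le_div_of_nonneg_right _ h0.le
    have : ‖GG f X T κ F B M c‖ * (3 / 2 + (3 / 2 - η)) ≤ (4 * (M + B) + 1) * 3 :=
      mul_le_mul hGc (by linarith) (by linarith) (by linarith)
    linarith
  -- back to `f`
  have hden := D.den_ge hsin
  have hdel := D.del_pos
  have hdn : 1 - ((1 - del κ F : ℝ) : ℂ) * X s ≠ 0 := by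
    intro h; rw [h, norm_zero] at hden; linarith
  have hk := norm_ker_ge hsim
  have hkn : ker T s ≠ 0 := by
    intro h; rw [h, norm_zero] at hk; linarith
  have hfs : f s = M - (GG f X T κ F B M s - ((2 * (M + B) + 1 : ℝ) : ℂ)) *
      (1 - ((1 - del κ F : ℝ) : ℂ) * X s) / ker T s := by
    unfold GG
    rw [add_sub_cancel_right]
    field_simp
    ring
  rw [hfs]
  have a1 : ‖GG f X T κ F B M s - ((2 * (M + B) + 1 : ℝ) : ℂ)‖ ≤ 18 * (M + B) / η + 3 * (M + B) := by
    refine (norm_sub_le _ _).trans ?_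
    rw [norm_real, Real.norm_of_nonneg (by linarith)]
    linarith
  have a2 : ‖(GG f X T κ F B M s - ((2 * (M + B) + 1 : ℝ) : ℂ)) *
      (1 - ((1 - del κ F : ℝ) : ℂ) * X s) / ker T s‖ ≤ (18 * (M + B) / η + 3 * (M + B)) * 2 / (1 / 3) := by
    rw [norm_div, norm_mul]
    have a3 := D.den_le hsin
    have a4 : 0 ≤ 18 * (M + B) / η + 3 * (M + B) := by positivity
    exact div_le_div₀ (by positivity) (mul_le_mul a1 a3 (norm_nonneg _) a4) (by norm_num) hk
  refine (norm_sub_le _ _).trans ?_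
  rw [norm_real, Real.norm_of_nonneg (by linarith)]
  refine (add_le_add le_rfl a2).trans ?_
  rw [le_div_iff₀ h0]
  have e2 : (M + (18 * (M + B) / η + 3 * (M + B)) * 2 / (1 / 3)) * η =
      M * η + 108 * (M + B) + 18 * (M + B) * η := by
    field_simp
    ring
  rw [e2]
  nlinarith

end Data

end Pool.Agent.W188.Ray
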