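import Mathlib

/-!
# One-sided bounds on the critical line: the abstract lemma

`f = X * conj f` on the line `Re s = 1/2`, `|X| = 1` there and `|X| ≤ 1` to the right.  If `Re f ≤ M` at the
points of the line at which `X = 1`, then `f = O(M / η)` at distance `η` to the right of the line.
-/

set_option autoImplicit false

open Complex Filter Topology Set Metric

namespace Pool.Agent.W188.Ray

/-- the points of the critical line -/
noncomputable def cp (t : ℝ) : ℂ := 1 / 2 + (t : ℂ) * I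

@[simp] lemma cp_re (t : ℝ) : (cp t).re = 1 / 2 := by simp [cp]
@[simp] lemma cp_im (t : ℝ) : (cp t).im = t := by simp [cp]

lemma eq_cp {s : ℂ} (h : s.re = 1 / 2) : s = cp s.im := by
  apply Complex.ext <;> simp [h]

/-- the kernel -/
noncomputable def ker (T : ℝ) (s : ℂ) : ℂ := cexp (-Complex.cos ((s - cp T) / 4))

lemma ker_diff (T : ℝ) : Differentiable ℂ (ker T) := by
  unfold ker
  fun_prop

lemma re_cos (z : ℂ) : (Complex.cos z).re = Real.cos z.re * Real.cosh z.im := by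
  rw [Complex.cos_eq]
  simp [← Complex.ofReal_cos, ← Complex.ofReal_cosh, ← Complex.ofReal_sin, ← Complex.ofReal_sinh]

lemma norm_ker (T : ℝ) (s : ℂ) :
    ‖ker T s‖ = Real.exp (-(Real.cos ((s.re - 1 / 2) / 4) * Real.cosh ((s.im - T) / 4))) := by
  unfold ker
  rw [norm_exp, neg_re, re_cos]
  congr 3
  · congr 1
    rw [show ((s - cp T) / 4) = (s - cp T) / ((4 : ℝ) : ℂ) by push_cast; ring, div_ofReal_re]
    simp
  · congr 1
    rw [show ((s - cp T) / 4) = (s - cp T) / ((4 : ℝ) : ℂ) by push_cast; ring, div_ofReal_im]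
    simp

lemma ker_line (T t : ℝ) : ker T (cp t) = ((Real.exp (-Real.cosh ((t - T) / 4)) : ℝ) : ℂ) := by
  unfold ker
  have h : (cp t - cp T) / 4 = (((t - T) / 4 : ℝ) : ℂ) * I := by
    simp only [cp]; push_cast; ring
  rw [h, Complex.cos_mul_I]
  push_cast
  rfl

lemma cos_ge {x : ℝ} (h0 : -(1 / 2) ≤ x) (h1 : x ≤ 3) : 1 / 2 ≤ Real.cos (x / 4) := by
  have h2 := Real.one_sub_sq_div_two_le_cos (x := x / 4)
  nlinarith

lemma norm_ker_le {T : ℝ} {s : ℂ} (h0 : 0 ≤ s.re) (h1 : s.re ≤ 7 / 2) :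
    ‖ker T s‖ ≤ Real.exp (-(Real.exp (|s.im - T| / 4) / 4)) := by
  rw [norm_ker]
  apply Real.exp_le_exp.2
  rw [neg_le_neg_iff]
  have h2 : 1 / 2 ≤ Real.cos ((s.re - 1 / 2) / 4) := cos_ge (by linarith) (by linarith)
  have h3 : Real.exp (|s.im - T| / 4) / 2 ≤ Real.cosh ((s.im - T) / 4) := by
    have h4 : (s.im - T) / 4 = (s.im - T) / 4 := rfl
    rw [← Real.cosh_abs, abs_div, abs_of_pos (by norm_num : (0:ℝ) < 4), Real.cosh_eq]
    have := Real.exp_pos (-(|s.im - T| / 4))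
    linarith
  have h5 : 0 < Real.exp (|s.im - T| / 4) := Real.exp_pos _
  nlinarith

lemma norm_ker_le_one {T : ℝ} {s : ℂ} (h0 : 0 ≤ s.re) (h1 : s.re ≤ 7 / 2) : ‖ker T s‖ ≤ 1 := by
  refine (norm_ker_le h0 h1).trans ?_
  rw [Real.exp_le_one_iff]
  have := Real.exp_pos (|s.im - T| / 4)
  linarith

lemma norm_ker_ge {T : ℝ} {s : ℂ} (h : s.im = T) : 1 / 3 ≤ ‖ker T s‖ := by
  rw [norm_ker, h, sub_self, zero_div, Real.cosh_zero, mul_one]
  have h1 := Real.cos_le_one ((s.re - 1 / 2) / 4)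
  have h2 : Real.exp (-1) ≤ Real.exp (-(Real.cos ((s.re - 1 / 2) / 4))) :=
    Real.exp_le_exp.2 (by linarith)
  refine le_trans ?_ h2
  rw [Real.exp_neg, le_inv_comm₀ (by norm_num) (Real.exp_pos _)]
  have := Real.exp_one_lt_d9
  norm_num
  linarith

/-- the domain: a closed rectangle -/
def InR (T H : ℝ) (s : ℂ) : Prop := 1 / 2 ≤ s.re ∧ s.re ≤ 7 / 2 ∧ |s.im - T| ≤ H

/-- the data -/
structure Data (f X : ℂ → ℂ) (T H κ F B M : ℝ) : Prop where
  hH : 2 ≤ H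
  hκ0 : 0 < κ
  hκ1 : κ ≤ 1
  hF : 1 ≤ F
  hB : 1 ≤ B
  hM : 1 ≤ M
  fd : ∀ s, InR T H s → DifferentiableAt ℂ f s
  Xd : ∀ s, InR T H s → DifferentiableAt ℂ X s
  fF : ∀ s, InR T H s → ‖f s‖ ≤ F
  X1 : ∀ s, InR T H s → ‖X s‖ ≤ 1
  Xline : ∀ t, |t - T| ≤ H → ‖X (cp t)‖ = 1
  fe : ∀ t, |t - T| ≤ H → f (cp t) = X (cp t) * (starRingEnd ℂ) (f (cp t))
  right : ∀ s, InR T H s → (s.re = 7 / 2 ∨ s = 2 + (T : ℂ) * I) → ‖X s‖ ≤ 1 / 2 ∧ ‖f s‖ ≤ B
  near : ∀ t, |t - T| ≤ H → ‖1 - X (cp t)‖ ≤ κ → (f (cp t)).re ≤ M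
  small : Real.exp (-(Real.exp (H / 4) / 4)) ≤ κ ^ 2 / (8 * F ^ 2)

end Pool.Agent.W188.Ray
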