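import Pool.Agent.W188.Ray.A2
import Pool.Agent.H345R2.Chi
import Pool.Agent.H388LH.ZG

set_option autoImplicit false

open Complex Filter Topology Set Metric

namespace Pool.Agent.W188.Ray

open H345 H345.Chi

lemma L2_re_ge {s : ℂ} (h0 : 0 < s.re) (h2 : s.re ≤ 4) (h1 : 50 ≤ s.im) :
    1 ≤ (L2 s).re ∧ ‖L2 s‖ ≤ Real.log (s.im / 2) ∧ |(L2 s).im| ≤ 14 / s.im := by
  have h := L2_close h0 h2 (by linarith)
  set l := Real.log (s.im / (2 * Real.pi)) with hl
  have hp := Real.pi_gt_three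
  have hp4 := Real.pi_lt_d2
  have him : 0 < s.im := by linarith
  have h14 : 14 / s.im ≤ 28 / 100 := by
    rw [div_le_iff₀ him]; linarith
  have hl2 : (1.3 : ℝ) ≤ l := by
    rw [hl, Real.le_log_iff_exp_le (by positivity), le_div_iff₀ (by positivity)]
    have e1 : Real.exp 1.3 ≤ 4 := by
      have h3 : Real.exp 1.3 = Real.exp 1 * Real.exp 0.3 := by
        rw [← Real.exp_add]; norm_num
      have h4 := Real.exp_one_lt_d9
      have h5 : Real.exp 0.3 ≤ 1.43 := by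
        have h6 := Real.exp_bound_div_one_sub_of_interval (x := 0.3) (by norm_num) (by norm_num)
        refine h6.trans ?_
        norm_num
      rw [h3]
      nlinarith [Real.exp_pos 0.3]
    nlinarith
  have hre : |(L2 s - (l : ℂ)).re| ≤ 14 / s.im := (abs_re_le_norm _).trans h
  have him2 : |(L2 s - (l : ℂ)).im| ≤ 14 / s.im := (abs_im_le_norm _).trans h
  rw [sub_re, ofReal_re] at hre
  rw [sub_im, ofReal_im, sub_zero] at him2
  refine ⟨by linarith [(abs_le.1 hre).1], ?_, him2⟩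
  have h6 : ‖L2 s‖ ≤ ‖L2 s - (l : ℂ)‖ + ‖(l : ℂ)‖ := by
    simpa using norm_add_le (L2 s - (l : ℂ)) (l : ℂ)
  rw [norm_real, Real.norm_of_nonneg (by linarith)] at h6
  have h7 : Real.log (s.im / 2) = l + Real.log Real.pi := by
    rw [hl, ← Real.log_mul (by positivity) (by positivity)]
    congr 1
    field_simp
  have h8 : (1 : ℝ) ≤ Real.log Real.pi := by
    rw [Real.le_log_iff_exp_le (by positivity)]
    have := Real.exp_one_lt_d9
    linarith [Real.pi_gt_three]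
  linarith

lemma hasDerivAt_hor (t x : ℝ) (h0 : 0 < x) (ht : 1 ≤ t) :
    HasDerivAt (fun x : ℝ => XX ((x : ℂ) + (t : ℂ) * I))
      (XX ((x : ℂ) + (t : ℂ) * I) * L2 ((x : ℂ) + (t : ℂ) * I)) x := by
  have h := hasDerivAt_XX (s := (x : ℂ) + (t : ℂ) * I) (by simpa using h0) (by simpa using ht)
  have h2 : HasDerivAt (fun x : ℝ => (x : ℂ) + (t : ℂ) * I) 1 x := by
    simpa using (ofRealCLM.hasDerivAt (x := x)).add_const ((t : ℂ) * I)
  have h3 := h.comp x h2
  rw [mul_one] at h3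
  exact h3

lemma one_le_norm_XX {s : ℂ} (h0 : 1 / 2 ≤ s.re) (h1 : s.re ≤ 4) (ht : 50 ≤ s.im) :
    1 ≤ ‖XX s‖ := by
  set t := s.im with htd
  have hd : ∀ x ∈ Ioo (1 / 2 : ℝ) 4, HasDerivAt (fun x : ℝ => ‖XX ((x : ℂ) + (t : ℂ) * I)‖ ^ 2)
      (2 * inner ℝ (XX ((x : ℂ) + (t : ℂ) * I))
        (XX ((x : ℂ) + (t : ℂ) * I) * L2 ((x : ℂ) + (t : ℂ) * I))) x := by
    intro x hx
    exact (hasDerivAt_hor t x (by linarith [hx.1]) (by linarith)).norm_sq
  have hmono : MonotoneOn (fun x : ℝ => ‖XX ((x : ℂ) + (t : ℂ) * I)‖ ^ 2) (Icc (1 / 2) 4) := by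
    apply monotoneOn_of_deriv_nonneg (convex_Icc _ _)
    · intro x hx
      exact (hasDerivAt_hor t x (by linarith [hx.1]) (by linarith)).norm_sq.continuousAt.continuousWithinAt
    · intro x hx
      rw [interior_Icc] at hx
      exact (hd x hx).differentiableAt.differentiableWithinAt
    · intro x hx
      rw [interior_Icc] at hx
      rw [(hd x hx).deriv]
      have h2 := (L2_re_ge (s := (x : ℂ) + (t : ℂ) * I) (by simp; linarith [hx.1])
        (by simp; exact hx.2.le) (by simpa using ht)).1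
      have h3 : inner ℝ (XX ((x : ℂ) + (t : ℂ) * I))
        (XX ((x : ℂ) + (t : ℂ) * I) * L2 ((x : ℂ) + (t : ℂ) * I)) =
        ‖XX ((x : ℂ) + (t : ℂ) * I)‖ ^ 2 * (L2 ((x : ℂ) + (t : ℂ) * I)).re := by
        rw [Complex.inner, mul_comm (XX _) (L2 _), mul_assoc, mul_conj, normSq_eq_norm_sq,
          re_mul_ofReal, mul_comm]
      rw [h3]
      positivity
  have h := hmono (left_mem_Icc.2 (by norm_num)) (⟨h0, h1⟩ : s.re ∈ Icc (1 / 2 : ℝ) 4) h0
  simp only at h
  have e1 : ((s.re : ℂ)) + (t : ℂ) * I = s := by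
    rw [htd]; exact re_add_im s
  have e2 : (((1 / 2 : ℝ) : ℂ)) + (t : ℂ) * I = 1 / 2 + (t : ℂ) * I := by push_cast; ring
  rw [e1, e2, norm_XX_half] at h
  nlinarith [norm_nonneg (XX s)]

/-- the rotation `X` on the critical line -/
noncomputable def rot (c : ℂ) (s : ℂ) : ℂ := c * (XX s)⁻¹

lemma norm_rot_line {c : ℂ} (hc : ‖c‖ = 1) (t : ℝ) : ‖rot c (cp t)‖ = 1 := by
  unfold rot cp
  rw [norm_mul, norm_inv, norm_XX_half, hc]
  simp

lemma hasDerivAt_rot (c : ℂ) {s : ℂ} (h0 : 0 < s.re) (h1 : 1 ≤ s.im) :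
    HasDerivAt (rot c) (-(rot c s * L2 s)) s := by
  have h := hasDerivAt_XX h0 h1
  have hn := XX_ne h0 h1
  have h2 := (h.inv hn).const_mul c
  have e : -(rot c s * L2 s) = c * (-(XX s * L2 s) / XX s ^ 2) := by
    unfold rot
    field_simp
  rw [e]
  exact h2

lemma hasDerivAt_rot_line (c : ℂ) {t : ℝ} (ht : 1 ≤ t) :
    HasDerivAt (fun t : ℝ => rot c (cp t)) (-(rot c (cp t) * L2 (cp t)) * I) t := by
  have h := hasDerivAt_rot c (s := cp t) (by simp) (by simpa using ht)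
  have h2 : HasDerivAt (fun x : ℝ => cp x) I t := by
    unfold cp
    simpa using ((ofRealCLM.hasDerivAt (x := t)).mul_const I).const_add (1 / 2 : ℂ)
  exact h.comp t h2

/-- if `X` is close to `1`, then it is equal to `1` at a nearby point -/
lemma exists_near {c : ℂ} (hc : ‖c‖ = 1) {t κ : ℝ} (ht : 100 ≤ t) (hκ : 0 < κ)
    (hκ1 : κ * Real.log t ≤ 1 / 32) (h : ‖1 - rot c (cp t)‖ ≤ κ) :
    ∃ t' : ℝ, |t' - t| ≤ 4 * κ ∧ rot c (cp t') = 1 := by
  have hlog : 1 ≤ Real.log t := by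
    rw [Real.le_log_iff_exp_le (by linarith)]
    have := Real.exp_one_lt_d9
    linarith
  have hκ2 : κ ≤ 1 / 32 := by nlinarith
  set Y : ℝ → ℂ := fun x => rot c (cp x) with hY
  have hYd : ∀ x ∈ Icc (t - 4 * κ) (t + 4 * κ), HasDerivAt Y (-(Y x * L2 (cp x)) * I) x := by
    intro x hx
    exact hasDerivAt_rot_line c (by linarith [hx.1])
  have hYn : ∀ x, ‖Y x‖ = 1 := fun x => norm_rot_line hc x
  have hL : ∀ x ∈ Icc (t - 4 * κ) (t + 4 * κ), 1 ≤ (L2 (cp x)).re ∧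
      ‖L2 (cp x)‖ ≤ Real.log t ∧ |(L2 (cp x)).im| ≤ 28 / 100 := by
    intro x hx
    obtain ⟨a1, a2, a3⟩ := L2_re_ge (s := cp x) (by simp) (by simp; norm_num)
      (by simp; linarith [hx.1])
    rw [cp_im] at a2 a3
    refine ⟨a1, a2.trans ?_, a3.trans ?_⟩
    · apply Real.log_le_log (by linarith [hx.1])
      linarith [hx.2]
    · rw [div_le_iff₀ (by linarith [hx.1])]
      linarith [hx.1]
  have ht0 : t ∈ Icc (t - 4 * κ) (t + 4 * κ) := ⟨by linarith, by linarith⟩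
  have hclose : ∀ x ∈ Icc (t - 4 * κ) (t + 4 * κ), ‖Y x - Y t‖ ≤ 1 / 8 := by
    intro x hx
    have h3 := (convex_Icc (t - 4 * κ) (t + 4 * κ)).norm_image_sub_le_of_norm_hasDerivWithin_le
      (f := Y) (f' := fun x => -(Y x * L2 (cp x)) * I) (C := Real.log t)
      (fun y hy => (hYd y hy).hasDerivWithinAt)
      (fun y hy => by
        rw [norm_mul, norm_I, mul_one, norm_neg, norm_mul, hYn, one_mul]
        exact (hL y hy).2.1) ht0 hx
    refine h3.trans ?_
    have h4 : ‖x - t‖ ≤ 4 * κ := by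
      rw [Real.norm_eq_abs]
      exact abs_le.2 ⟨by linarith [hx.1], by linarith [hx.2]⟩
    calc Real.log t * ‖x - t‖ ≤ Real.log t * (4 * κ) :=
          mul_le_mul_of_nonneg_left h4 (by linarith)
      _ ≤ 1 / 8 := by linarith
  have hre : ∀ x ∈ Icc (t - 4 * κ) (t + 4 * κ), 3 / 4 ≤ (Y x).re := by
    intro x hx
    have h3 : ‖1 - Y x‖ ≤ 1 / 4 := by
      have e : 1 - Y x = (1 - Y t) - (Y x - Y t) := by ring
      rw [e]
      refine (norm_sub_le _ _).trans ?_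
      have := hclose x hx
      linarith
    have h4 := (abs_re_le_norm (1 - Y x)).trans h3
    rw [sub_re, one_re] at h4
    linarith [(abs_le.1 h4).2]
  set g : ℝ → ℝ := fun x => (Y x).im with hg
  have hgd : ∀ x ∈ Icc (t - 4 * κ) (t + 4 * κ),
      HasDerivAt g ((-(Y x * L2 (cp x)) * I).im) x := by
    intro x hx
    exact (imCLM.hasFDerivAt.comp_hasDerivAt x (hYd x hx))
  have hg' : ∀ x ∈ Icc (t - 4 * κ) (t + 4 * κ), (-(Y x * L2 (cp x)) * I).im ≤ -(1 / 3) := by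
    intro x hx
    obtain ⟨a1, a2, a3⟩ := hL x hx
    have a4 := hre x hx
    have a5 : |(Y x).im| ≤ 1 := (abs_im_le_norm _).trans (hYn x).le
    have e : (-(Y x * L2 (cp x)) * I).im = -((Y x).re * (L2 (cp x)).re - (Y x).im * (L2 (cp x)).im) := by
      simp [mul_im, mul_re]
    rw [e]
    have a6 : (Y x).im * (L2 (cp x)).im ≤ 1 * (28 / 100) := by
      calc (Y x).im * (L2 (cp x)).im ≤ |(Y x).im * (L2 (cp x)).im| := le_abs_self _
        _ = |(Y x).im| * |(L2 (cp x)).im| := abs_mul _ _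
        _ ≤ _ := mul_le_mul a5 a3 (abs_nonneg _) (by norm_num)
    have a7 : 3 / 4 * 1 ≤ (Y x).re * (L2 (cp x)).re :=
      mul_le_mul a4 a1 (by norm_num) (by linarith)
    linarith
  have hgc : ContinuousOn g (Icc (t - 4 * κ) (t + 4 * κ)) :=
    fun x hx => (hgd x hx).continuousAt.continuousWithinAt
  have hg0 : |g t| ≤ κ := by
    have h3 := (abs_im_le_norm (1 - Y t)).trans h
    rw [sub_im, one_im, zero_sub, abs_neg] at h3
    exact h3
  have hg0' := abs_le.1 hg0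
  have hleft : 0 ≤ g (t - 4 * κ) := by
    obtain ⟨x, hx, hx2⟩ := exists_hasDerivAt_eq_slope g (fun x => (-(Y x * L2 (cp x)) * I).im)
      (a := t - 4 * κ) (b := t) (by linarith)
      (hgc.mono (Icc_subset_Icc le_rfl (by linarith)))
      (fun x hx => hgd x ⟨hx.1.le, by linarith [hx.2]⟩)
    have h3 := hg' x ⟨hx.1.le, by linarith [hx.2]⟩
    rw [hx2, div_le_iff₀ (by linarith)] at h3
    linarith [hg0'.1]
  have hright : g (t + 4 * κ) ≤ 0 := by
    obtain ⟨x, hx, hx2⟩ := exists_hasDerivAt_eq_slope g (fun x => (-(Y x * L2 (cp x)) * I).im)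
      (a := t) (b := t + 4 * κ) (by linarith)
      (hgc.mono (Icc_subset_Icc (by linarith) le_rfl))
      (fun x hx => hgd x ⟨by linarith [hx.1], hx.2.le⟩)
    have h3 := hg' x ⟨by linarith [hx.1], hx.2.le⟩
    rw [hx2, div_le_iff₀ (by linarith)] at h3
    linarith [hg0'.2]
  obtain ⟨x, hx, hx0⟩ := intermediate_value_Icc' (by linarith : t - 4 * κ ≤ t + 4 * κ) hgc
    (⟨hright, hleft⟩ : (0 : ℝ) ∈ Icc (g (t + 4 * κ)) (g (t - 4 * κ)))
  refine ⟨x, abs_le.2 ⟨by linarith [hx.1], by linarith [hx.2]⟩, ?_⟩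
  have h4 : (Y x).im = 0 := hx0
  have h5 := hre x hx
  have h6 := hYn x
  rw [← abs_re_eq_norm.2 h4, abs_of_pos (by linarith)] at h6
  apply Complex.ext
  · exact h6
  · exact h4

end Pool.Agent.W188.Ray
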